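import Pool.Agent.H654R5.PT.Stm

/-!
# DEG: the sum of the degrees of the irreducible polynomials of degree at most `c`
-/

namespace Pool.Agent.H654R5.PT.DEG

open Pool.Agent.H654R5.PT

theorem natDegree_toP (l : List Bool) : (toP l).natDegree ≤ l.length - 1 := by
  unfold toP
  apply Polynomial.natDegree_sum_le_of_forall_le
  intro i hi
  have hi' := Finset.mem_range.1 hi
  split_ifs
  · exact (Polynomial.natDegree_X_pow_le i).trans (by omega)
  · simp

theorem DEG_proof (h1 : S_IRS) : S_DEG := by
  classical
  intro c hc
  obtain ⟨ha, hn, hm⟩ := h1 c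
  haveI : Fact (Nat.Prime 2) := ⟨Nat.prime_two⟩
  haveI : Finite (GaloisField 2 c) := by
    apply Nat.finite_of_card_ne_zero
    rw [GaloisField.card 2 c (by omega)]
    positivity
  haveI : Fintype (GaloisField 2 c) := Fintype.ofFinite _
  have hcard : Fintype.card (GaloisField 2 c) = 2 ^ c := by
    rw [← Nat.card_eq_fintype_card, GaloisField.card 2 c (by omega)]
  have hfin : Module.finrank (ZMod 2) (GaloisField 2 c) = c := GaloisField.finrank 2 (by omega)
  haveI : Module.Finite (ZMod 2) (GaloisField 2 c) := Module.Finite.of_finite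
  have hcov : (Finset.univ : Finset (GaloisField 2 c)) ⊆
      (irrs c).toFinset.biUnion (fun h =>
        ((toP h).map (algebraMap (ZMod 2) (GaloisField 2 c))).roots.toFinset) := by
    intro α _
    have hint : IsIntegral (ZMod 2) α := Algebra.IsIntegral.isIntegral α
    obtain ⟨h, hh, he⟩ := hm (minpoly (ZMod 2) α) (minpoly.monic hint) (minpoly.irreducible hint)
      ((minpoly.natDegree_le α).trans hfin.le)
    rw [Finset.mem_biUnion]
    refine ⟨h, List.mem_toFinset.2 hh, ?_⟩
    rw [Multiset.mem_toFinset, Polynomial.mem_roots, he, Polynomial.IsRoot.def,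
      Polynomial.eval_map_algebraMap]
    · exact minpoly.aeval _ _
    · rw [he]
      exact ((minpoly.monic hint).map _).ne_zero
  calc 2 ^ c = (Finset.univ : Finset (GaloisField 2 c)).card := by rw [Finset.card_univ, hcard]
    _ ≤ _ := Finset.card_le_card hcov
    _ ≤ ∑ h ∈ (irrs c).toFinset,
        ((toP h).map (algebraMap (ZMod 2) (GaloisField 2 c))).roots.toFinset.card :=
        Finset.card_biUnion_le
    _ ≤ ∑ h ∈ (irrs c).toFinset, (h.length - 1) := by
        apply Finset.sum_le_sum
        intro h _
        calc _ ≤ Multiset.card ((toP h).map (algebraMap (ZMod 2) (GaloisField 2 c))).roots :=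
              Multiset.toFinset_card_le _
          _ ≤ _ := Polynomial.card_roots' _
          _ ≤ (toP h).natDegree := Polynomial.natDegree_map_le
          _ ≤ _ := natDegree_toP h
    _ = _ := List.sum_toFinset _ hn

end Pool.Agent.H654R5.PT.DEG
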